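import Pool.Agent.H35.SW.FStmts

/-!
Module ZFA of project SW: extensionality, foundation, pairing, union and infinity in the generic
extension.
-/

set_option autoImplicit false
set_option linter.unusedVariables false
set_option synthInstance.maxSize 100000

namespace SW

namespace ZFAaux

variable {M : Type} [SetStr M] [ZF M]

/-- Nonempty classes of names have minimal elements. -/
theorem name_min {K : M → Prop} (hK : Cl K) (h : ∃ x, K x) :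
    ∃ x, K x ∧ ∀ y s, E (opair y s) x → ¬ K y := by
  by_contra hcon
  push Not at hcon
  have hL : Cl (fun w : M => K w ∨ (∃ y : M, K y ∧ w = sing y) ∨
      (∃ y s : M, K y ∧ w = opair y s)) := by
    have : Df (fun w : Fin 2 → M => K (w 0)) := hK.ren (fun _ => 0)
    infer_instance
  obtain ⟨x, hx⟩ := h
  obtain ⟨w, hw, hmin⟩ := mem_min hL ⟨x, Or.inl hx⟩
  rcases hw with hw | ⟨y, hy, rfl⟩ | ⟨y, s, hy, rfl⟩
  · obtain ⟨y, s, hys, hy⟩ := hcon w hw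
    exact hmin _ hys (Or.inr (Or.inr ⟨y, s, hy, rfl⟩))
  · exact hmin y (by simp) (Or.inl hy)
  · exact hmin (sing y) (by simp [opair]) (Or.inr (Or.inl ⟨y, hy, rfl⟩))

variable {F : FPoset M} {G : M → Prop}

theorem ext_ext (hG : Gen F G) (eq : EqFacts F) (gm : GenFacts F G) (qu : ExtFacts F G)
    (x y : Ext F G) (h : ∀ z, E z x ↔ E z y) : x = y := by
  obtain ⟨a, rfl⟩ := Quot.exists_rep x
  obtain ⟨b, rfl⟩ := Quot.exists_rep y
  change mk F G a = mk F G b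
  rw [qu.eq_iff]
  obtain ⟨p, hp, hC⟩ := gm.meetC (fun p => EqF F p a b ∨
    (∃ c s : M, E (opair c s) a ∧ E s F.P ∧ F.le p s ∧
      ∀ q : M, E q F.P → F.le q p → ¬ MemF F q c b) ∨
    (∃ d s : M, E (opair d s) b ∧ E s F.P ∧ F.le p s ∧
      ∀ q : M, E q F.P → F.le q p → ¬ MemF F q d a)) inferInstance (by
    intro p hp
    by_contra hcon
    push Not at hcon
    apply (hcon p hp (F.refl p hp)).1
    refine eq.coind (fun q x y => EqF F q x y ∨ (x = a ∧ y = b ∧ E q F.P ∧ F.le q p))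
      inferInstance ?_ p a b (Or.inr ⟨rfl, rfl, hp, F.refl p hp⟩)
    rintro q x y (hq | ⟨rfl, rfl, hq, hqp⟩)
    · refine ⟨eq.inP hq, fun c s r hc hs hr hrq hrs => ?_, fun d s r hd hs hr hrq hrs => ?_⟩
      · obtain ⟨r', d, s', h1, h2, h3, h4, h5, h6⟩ := eq.left hq hc hs hr hrq hrs
        exact ⟨r', d, s', h1, h2, h3, h4, h5, Or.inl h6⟩
      · obtain ⟨r', c, s', h1, h2, h3, h4, h5, h6⟩ := eq.right hq hd hs hr hrq hrs
        exact ⟨r', c, s', h1, h2, h3, h4, h5, Or.inl h6⟩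
    · refine ⟨hq, fun c s r hc hs hr hrq hrs => ?_, fun d s r hd hs hr hrq hrs => ?_⟩
      · have hrp : F.le r p := F.trans r q p hr hq hp hrq hqp
        obtain ⟨q', hq', hq'r, hm⟩ := (hcon r hr hrp).2.1 c s hc hs hrs
        obtain ⟨r', d, s', h1, h2, h3, h4, h5, h6⟩ := hm.2 q' hq' (F.refl q' hq')
        exact ⟨r', d, s', h1, F.trans r' q' r h1 hq' hr h2 hq'r, h3, h4, h5, Or.inl h6⟩
      · have hrp : F.le r p := F.trans r q p hr hq hp hrq hqp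
        obtain ⟨q', hq', hq'r, hm⟩ := (hcon r hr hrp).2.2 d s hd hs hrs
        obtain ⟨r', c, s', h1, h2, h3, h4, h5, h6⟩ := hm.2 q' hq' (F.refl q' hq')
        exact ⟨r', c, s', h1, F.trans r' q' r h1 hq' hr h2 hq'r, h3, h4, h5,
          Or.inl (eq.symm h6)⟩)
  rcases hC with hC | ⟨c, s, hc, hs, hps, hn⟩ | ⟨d, s, hd, hs, hps, hn⟩
  · exact ⟨p, hp, hC⟩
  · exfalso
    have h1 : E (mk F G c) (mk F G a) :=
      (qu.mem_iff' _ _).2 ⟨c, s, hc, hG.up p s hp hs hps, rfl⟩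
    obtain ⟨p', hp', hm⟩ := (qu.mem_iff _ _).1 ((h _).1 h1)
    obtain ⟨r, hr, hrp, hrp'⟩ := hG.dir p p' hp hp'
    exact hn r (hG.sub r hr) hrp (eq.mmono hm (hG.sub r hr) hrp')
  · exfalso
    have h1 : E (mk F G d) (mk F G b) :=
      (qu.mem_iff' _ _).2 ⟨d, s, hd, hG.up p s hp hs hps, rfl⟩
    obtain ⟨p', hp', hm⟩ := (qu.mem_iff _ _).1 ((h _).2 h1)
    obtain ⟨r, hr, hrp, hrp'⟩ := hG.dir p p' hp hp'
    exact hn r (hG.sub r hr) hrp (eq.mmono hm (hG.sub r hr) hrp')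

theorem ext_found (hG : Gen F G) (eq : EqFacts F) (gm : GenFacts F G) (qu : ExtFacts F G)
    (x : Ext F G) (h : ∃ y, E y x) : ∃ y, E y x ∧ ∀ z, E z x → ¬ E z y := by
  obtain ⟨a, rfl⟩ := Quot.exists_rep x
  change ∃ y, E y (mk F G a) ∧ ∀ z, E z (mk F G a) → ¬ E z y
  obtain ⟨y, hy⟩ := h
  obtain ⟨d0, p0, hd0, hp0, -⟩ := (qu.mem_iff' y a).1 hy
  have hP0 := hG.sub p0 hp0
  have hm0 : MemF F p0 d0 a := eq.mintro hd0 hP0 hP0 (F.refl p0 hP0)
  obtain ⟨p, hp, hpp0, x, hx, hxn⟩ := gm.meetB (fun q => ∃ x : M, MemF F q x a ∧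
    ∀ r : M, E r F.P → F.le r q → ∀ y : M, ¬ (MemF F r y x ∧ MemF F r y a)) inferInstance p0 hp0
    (by
    intro p hp hpp0
    obtain ⟨x, ⟨r, hr, hrp, hrx⟩, hmin⟩ := name_min
      (K := fun x => ∃ r : M, E r F.P ∧ F.le r p ∧ MemF F r x a) inferInstance
      ⟨d0, p, hp, F.refl p hp, eq.mmono hm0 hp hpp0⟩
    refine ⟨r, hr, hrp, x, hrx, fun r' hr' hr'r y ⟨hyx, hya⟩ => ?_⟩
    obtain ⟨r'', d, s, h1, h2, h3, h4, h5, h6⟩ := hyx.2 r' hr' (F.refl r' hr')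
    refine hmin d s h3 ⟨r'', h1, ?_, ?_⟩
    · exact F.trans r'' r' p h1 hr' hp h2 (F.trans r' r p hr' hr hp hr'r hrp)
    · exact eq.mcongl h6 (eq.mmono hya h1 h2))
  refine ⟨mk F G x, (qu.mem_iff _ _).2 ⟨p, hp, hx⟩, fun z hz hzx => ?_⟩
  obtain ⟨c, rfl⟩ := Quot.exists_rep z
  obtain ⟨p1, hp1, h1⟩ := (qu.mem_iff c a).1 hz
  obtain ⟨p2, hp2, h2⟩ := (qu.mem_iff c x).1 hzx
  obtain ⟨r1, hr1, hr11, hr12⟩ := hG.dir p1 p2 hp1 hp2
  obtain ⟨r, hr, hrp, hrr1⟩ := hG.dir p r1 hp hr1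
  have hR := hG.sub r hr
  have hR1 := hG.sub r1 hr1
  exact hxn r hR hrp c ⟨eq.mmono h2 hR (F.trans r r1 p2 hR hR1 (hG.sub p2 hp2) hrr1 hr12),
    eq.mmono h1 hR (F.trans r r1 p1 hR hR1 (hG.sub p1 hp1) hrr1 hr11)⟩

theorem ext_pair (hG : Gen F G) (qu : ExtFacts F G) (x y : Ext F G) :
    ∃ z, ∀ w, E w z ↔ w = x ∨ w = y := by
  obtain ⟨a, rfl⟩ := Quot.exists_rep x
  obtain ⟨b, rfl⟩ := Quot.exists_rep y
  change ∃ z, ∀ w, E w z ↔ w = mk F G a ∨ w = mk F G b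
  refine ⟨mk F G (upair (opair a F.one) (opair b F.one)), fun w => ?_⟩
  rw [qu.mem_iff']
  constructor
  · rintro ⟨d, s, hd, hs, rfl⟩
    rw [mem_upair] at hd
    rcases hd with hd | hd
    · rw [opair_inj] at hd; left; rw [hd.1]
    · rw [opair_inj] at hd; right; rw [hd.1]
  · rintro (rfl | rfl)
    · exact ⟨a, F.one, by simp, hG.one, rfl⟩
    · exact ⟨b, F.one, by simp, hG.one, rfl⟩

theorem ext_union (hG : Gen F G) (qu : ExtFacts F G) (x : Ext F G) :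
    ∃ u, ∀ w, E w u ↔ ∃ y, E y x ∧ E w y := by
  obtain ⟨a, rfl⟩ := Quot.exists_rep x
  change ∃ u, ∀ w, E w u ↔ ∃ y, E y (mk F G a) ∧ E w y
  have htr : ∀ {c s d t : M}, E (opair c s) a → E (opair d t) c → E d (tc a) := by
    intro c s d t h1 h2
    have hT := Trans_tc a
    have h3 : E (opair c s) (tc a) := sub_tc a _ h1
    have h4 : E (sing c) (tc a) := hT _ h3 _ (by simp [opair])
    have h5 : E c (tc a) := hT _ h4 _ (by simp)
    have h6 : E (opair d t) (tc a) := hT _ h5 _ h2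
    have h7 : E (sing d) (tc a) := hT _ h6 _ (by simp [opair])
    exact hT _ h7 _ (by simp)
  have hC : Cl (fun z : M => ∃ d r c s t : M, z = opair d r ∧ E (opair c s) a ∧
      E (opair d t) c ∧ E s F.P ∧ E t F.P ∧ F.le r s ∧ F.le r t) := inferInstance
  refine ⟨mk F G (sep (prod (tc a) F.P) (fun z : M => ∃ d r c s t : M, z = opair d r ∧
    E (opair c s) a ∧ E (opair d t) c ∧ E s F.P ∧ E t F.P ∧ F.le r s ∧ F.le r t)), fun w => ?_⟩
  rw [qu.mem_iff']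
  constructor
  · rintro ⟨d, r, hd, hr, rfl⟩
    rw [mem_sep' hC] at hd
    obtain ⟨-, d', r', c, s, t, he, h1, h2, h3, h4, h5, h6⟩ := hd
    rw [opair_inj] at he
    obtain ⟨rfl, rfl⟩ := he
    exact ⟨mk F G c, (qu.mem_iff' _ _).2 ⟨c, s, h1, hG.up r s hr h3 h5, rfl⟩,
      (qu.mem_iff' _ _).2 ⟨d, t, h2, hG.up r t hr h4 h6, rfl⟩⟩
  · rintro ⟨y, hy, hw⟩
    obtain ⟨c, s, hc, hs, rfl⟩ := (qu.mem_iff' _ _).1 hy
    obtain ⟨d, t, hd, ht, rfl⟩ := (qu.mem_iff' _ _).1 hw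
    obtain ⟨r, hr, hrs, hrt⟩ := hG.dir s t hs ht
    refine ⟨d, r, ?_, hr, rfl⟩
    rw [mem_sep' hC]
    exact ⟨mem_prod.2 ⟨htr hc hd, hG.sub r hr⟩, d, r, c, s, t, rfl, hc, hd, hG.sub s hs,
      hG.sub t ht, hrs, hrt⟩

theorem mem_mk_chk (hG : Gen F G) (qu : ExtFacts F G) (x : M) (w : Ext F G) :
    E w (mk F G (chk F x)) ↔ ∃ y, E y x ∧ w = mk F G (chk F y) := by
  rw [qu.mem_iff']
  constructor
  · rintro ⟨d, s, hd, hs, rfl⟩
    rw [mem_chk] at hd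
    obtain ⟨y, hy, he⟩ := hd
    rw [opair_inj] at he
    exact ⟨y, hy, by rw [he.1]⟩
  · rintro ⟨y, hy, rfl⟩
    exact ⟨chk F y, F.one, (mem_chk F).2 ⟨y, hy, rfl⟩, hG.one, rfl⟩

theorem ext_inf (hG : Gen F G) (qu : ExtFacts F G) :
    ∃ x : Ext F G, (∃ e, E e x ∧ ∀ z, ¬ E z e) ∧
      ∀ y, E y x → ∃ s, E s x ∧ ∀ w, E w s ↔ E w y ∨ w = y := by
  refine ⟨mk F G (chk F om), ⟨mk F G (chk F emp), ?_, fun z hz => ?_⟩, fun y hy => ?_⟩
  · rw [mem_mk_chk hG qu]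
    exact ⟨emp, mem_om.2 fun z hz => hz.1, rfl⟩
  · rw [mem_mk_chk hG qu] at hz
    obtain ⟨y, hy, -⟩ := hz
    exact not_mem_emp y hy
  · rw [mem_mk_chk hG qu] at hy
    obtain ⟨n, hn, rfl⟩ := hy
    refine ⟨mk F G (chk F (suc n)), ?_, fun w => ?_⟩
    · rw [mem_mk_chk hG qu]
      exact ⟨suc n, suc_mem_om hn, rfl⟩
    · rw [mem_mk_chk hG qu, mem_mk_chk hG qu]
      constructor
      · rintro ⟨m, hm, rfl⟩
        unfold suc at hm
        rw [mem_ins] at hm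
        rcases hm with hm | rfl
        · exact Or.inl ⟨m, hm, rfl⟩
        · exact Or.inr rfl
      · rintro (⟨m, hm, rfl⟩ | rfl)
        · exact ⟨m, by unfold suc; rw [mem_ins]; exact Or.inl hm, rfl⟩
        · exact ⟨n, by unfold suc; rw [mem_ins]; exact Or.inr rfl, rfl⟩

end ZFAaux

open ZFAaux in
/-- Module ZFA. -/
theorem zfa (heq : EQStmt) (hgm : GMStmt) (hq : QUOStmt) : ZFAStmt := by
  intro M _ _ F G hG
  have eq := heq M F
  have gm := hgm M F G hG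
  have qu := hq M F G hG
  exact ⟨ext_ext hG eq gm qu, ext_found hG eq gm qu, ext_pair hG qu, ext_union hG qu,
    ext_inf hG qu⟩

end SW
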